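import Mathlib

/-! # Exponential sums over numbers with digits 0 and 1 -/

namespace Pool.Agent.W10.HS

open Finset

/-- `e θ = exp (2 π i θ)`. -/
noncomputable def e (θ : ℝ) : ℂ := Complex.exp (Complex.I * ((2 * Real.pi * θ : ℝ) : ℂ))

/-- distance to the nearest integer -/
noncomputable def nd (x : ℝ) : ℝ := |x - round x|

lemma norm_e (θ : ℝ) : ‖e θ‖ = 1 := by
  unfold e
  rw [mul_comm]
  exact Complex.norm_exp_ofReal_mul_I _

lemma e_zero : e 0 = 1 := by simp [e]

lemma e_add (a b : ℝ) : e (a + b) = e a * e b := by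
  unfold e
  rw [← Complex.exp_add]
  congr 1
  push_cast
  ring

lemma e_int (k : ℤ) : e k = 1 := by
  unfold e
  rw [Complex.exp_eq_one_iff]
  refine ⟨k, ?_⟩
  push_cast
  ring

lemma e_neg (θ : ℝ) : e (-θ) = (starRingEnd ℂ) (e θ) := by
  unfold e
  rw [← Complex.exp_conj]
  congr 1
  rw [map_mul, Complex.conj_I, Complex.conj_ofReal]
  push_cast
  ring

lemma e_nat_mul (k : ℕ) (x : ℝ) : e (k * x) = (e x) ^ k := by
  unfold e
  rw [← Complex.exp_nat_mul]
  congr 1
  push_cast
  ring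

lemma e_sum {ι : Type*} (s : Finset ι) (f : ι → ℝ) : e (∑ i ∈ s, f i) = ∏ i ∈ s, e (f i) := by
  classical
  induction s using Finset.induction_on with
  | empty => simp [e_zero]
  | insert a s ha ih => rw [Finset.sum_insert ha, Finset.prod_insert ha, e_add, ih]

lemma nd_nonneg (x : ℝ) : 0 ≤ nd x := abs_nonneg _

lemma nd_le (x : ℝ) (k : ℤ) : nd x ≤ |x - k| := round_le x k

lemma nd_le_half (x : ℝ) : nd x ≤ 1 / 2 := abs_sub_round x

lemma nd_eq (x : ℝ) (k : ℤ) (h : |x - k| ≤ 1 / 2) : nd x = |x - k| := by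
  apply le_antisymm (nd_le x k)
  by_cases hk : round x = k
  · unfold nd
    rw [hk]
  · have h1 : (1 : ℝ) ≤ |(round x : ℝ) - k| := by
      have : (1 : ℤ) ≤ |round x - k| := Int.one_le_abs (sub_ne_zero.mpr hk)
      exact_mod_cast this
    have h2 : |(round x : ℝ) - k| ≤ |x - round x| + |x - k| := by
      have := abs_sub_le (round x : ℝ) x k
      rw [abs_sub_comm (round x : ℝ) x] at this
      exact this
    unfold nd
    linarith

lemma nd_nat_mul (M : ℕ) (w : ℝ) : nd (M * w) ≤ M * nd w := by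
  have h := nd_le ((M : ℝ) * w) ((M : ℤ) * round w)
  refine h.trans (le_of_eq ?_)
  push_cast
  rw [← mul_sub, abs_mul, abs_of_nonneg (by positivity : (0 : ℝ) ≤ M)]
  rfl

lemma nd_neg (w : ℝ) : nd (-w) = nd w := by
  apply le_antisymm
  · have h := nd_le (-w) (-(round w))
    refine h.trans (le_of_eq ?_)
    push_cast
    rw [show -w - -(round w : ℝ) = -(w - round w) by ring, abs_neg]
    rfl
  · have h := nd_le w (-(round (-w)))
    refine h.trans (le_of_eq ?_)
    push_cast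
    rw [show w - -(round (-w) : ℝ) = -(-w - round (-w)) by ring, abs_neg]
    rfl

lemma norm_e_sub_one (x : ℝ) : 4 * nd x ≤ ‖e x - 1‖ := by
  set δ := x - round x with hδ
  have hx : e x = e δ := by
    have : x = δ + (round x : ℤ) := by rw [hδ]; ring
    conv_lhs => rw [this]
    rw [e_add, e_int, mul_one]
  have h1 : ‖e δ - 1‖ = 2 * |Real.sin (Real.pi * δ)| := by
    unfold e
    rw [Complex.norm_exp_I_mul_ofReal_sub_one, show 2 * Real.pi * δ / 2 = Real.pi * δ by ring]
    simp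
  have h2 : |δ| ≤ 1 / 2 := abs_sub_round x
  have h3 : 2 * |δ| ≤ |Real.sin (Real.pi * δ)| := by
    have h4 : |Real.sin (Real.pi * δ)| = |Real.sin (Real.pi * |δ|)| := by
      rcases abs_cases δ with ⟨h, _⟩ | ⟨h, _⟩
      · rw [h]
      · rw [h, mul_neg, Real.sin_neg, abs_neg]
    rw [h4]
    have h5 := Real.mul_le_sin (x := Real.pi * |δ|) (by positivity)
      (by nlinarith [Real.pi_pos])
    have h6 : 2 / Real.pi * (Real.pi * |δ|) = 2 * |δ| := by
      field_simp
    rw [h6] at h5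
    exact h5.trans (le_abs_self _)
  rw [hx, h1]
  have : nd x = |δ| := rfl
  rw [this]
  linarith

/-- A finite set of points staying away from the integers has a large exponential sum with a
small frequency. -/
lemma fourier {ι : Type*} (s : Finset ι) (x : ι → ℝ) (hs : s.Nonempty) (ε : ℝ) (hε : 0 < ε)
    (hx : ∀ i ∈ s, ε ≤ nd (x i)) (n : ℕ) (hn : 1 ≤ n)
    (hne : (1 / (2 * ε)) ^ 6 < (n : ℝ) ^ 5 / 6) :
    ∃ h : ℕ, 1 ≤ h ∧ h ≤ 3 * n ∧ (s.card : ℝ) / (6 * n) ≤ ‖∑ i ∈ s, e (h * x i)‖ := by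
  classical
  by_contra hcon
  push Not at hcon
  have hcard : (0 : ℝ) < s.card := by exact_mod_cast hs.card_pos
  have hn0 : (0 : ℝ) < n := by exact_mod_cast hn
  set P : Polynomial ℕ := (∑ k ∈ range n, (Polynomial.X : Polynomial ℕ) ^ k) ^ 3 with hP
  set R := range (P.natDegree + 1) with hR
  have hdeg : P.natDegree + 1 ≤ 3 * n := by
    have h1 : P.natDegree ≤ 3 * (n - 1) := by
      rw [hP]
      refine Polynomial.natDegree_pow_le.trans ?_
      apply Nat.mul_le_mul_left
      apply Polynomial.natDegree_sum_le_of_forall_le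
      intro k hk
      have := mem_range.mp hk
      refine (Polynomial.natDegree_X_pow_le k).trans ?_
      omega
    omega
  have hT : ∀ z : ℂ, (∑ k ∈ range n, z ^ k) ^ 3 = ∑ r ∈ R, (P.coeff r : ℂ) * z ^ r := by
    intro z
    have h1 : Polynomial.aeval z P = (∑ k ∈ range n, z ^ k) ^ 3 := by
      rw [hP]; simp
    rw [← h1, Polynomial.aeval_eq_sum_range]
    apply Finset.sum_congr rfl
    intro r _
    simp
  have hsum1 : ∑ r ∈ R, (P.coeff r : ℝ) = (n : ℝ) ^ 3 := by
    have h1 : P.eval 1 = n ^ 3 := by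
      rw [hP]; simp [Polynomial.eval_finsetSum]
    rw [Polynomial.eval_eq_sum_range] at h1
    simp only [one_pow, mul_one] at h1
    have := congrArg (fun t : ℕ => (t : ℝ)) h1
    push_cast at this
    exact this
  -- upper bound
  have hup : ∀ i ∈ s, ‖(∑ k ∈ range n, (e (x i)) ^ k) ^ 3‖ ^ 2 ≤ (1 / (2 * ε)) ^ 6 := by
    intro i hi
    have h1 : ‖∑ k ∈ range n, (e (x i)) ^ k‖ ≤ 1 / (2 * ε) := by
      have h2 := geom_sum_mul (e (x i)) n
      have h3 : ‖∑ k ∈ range n, (e (x i)) ^ k‖ * ‖e (x i) - 1‖ ≤ 2 := by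
        rw [← norm_mul, h2]
        refine (norm_sub_le _ _).trans ?_
        rw [norm_pow, norm_e]
        norm_num
      have h4 := norm_e_sub_one (x i)
      have h5 := hx i hi
      have h6 : ‖∑ k ∈ range n, (e (x i)) ^ k‖ * (4 * ε) ≤ 2 := by
        refine le_trans ?_ h3
        apply mul_le_mul_of_nonneg_left _ (norm_nonneg _)
        linarith
      rw [le_div_iff₀ (by positivity)]
      linarith
    rw [norm_pow, ← pow_mul]
    exact pow_le_pow_left₀ (norm_nonneg _) h1 6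
  have hup2 : ∑ i ∈ s, ‖(∑ k ∈ range n, (e (x i)) ^ k) ^ 3‖ ^ 2
      ≤ s.card * (1 / (2 * ε)) ^ 6 := by
    refine (Finset.sum_le_sum hup).trans (le_of_eq ?_)
    simp
  -- exact formula
  have hform : ∀ i ∈ s, ‖(∑ k ∈ range n, (e (x i)) ^ k) ^ 3‖ ^ 2 =
      ∑ r ∈ R, ∑ r' ∈ R, (P.coeff r : ℝ) * (P.coeff r' : ℝ) *
        (e (((r : ℝ) - r') * x i)).re := by
    intro i _
    have h1 : (((‖(∑ k ∈ range n, (e (x i)) ^ k) ^ 3‖ ^ 2 : ℝ)) : ℂ) =
        ∑ r ∈ R, ∑ r' ∈ R, (P.coeff r : ℂ) * (P.coeff r' : ℂ) *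
        e (((r : ℝ) - r') * x i) := by
      rw [hT (e (x i))]
      push_cast
      rw [← Complex.mul_conj', map_sum, Finset.sum_mul_sum]
      apply Finset.sum_congr rfl
      intro r _
      apply Finset.sum_congr rfl
      intro r' _
      have h2 : e (((r : ℝ) - r') * x i) = e (x i) ^ r * (starRingEnd ℂ) (e (x i) ^ r') := by
        rw [← e_nat_mul, ← e_nat_mul, ← e_neg, ← e_add]
        congr 1
        ring
      rw [h2, map_mul]
      simp only [map_natCast]
      ring
    have h2 := congrArg Complex.re h1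
    rw [Complex.ofReal_re] at h2
    rw [h2]
    simp only [Complex.re_sum]
    apply Finset.sum_congr rfl
    intro r _
    apply Finset.sum_congr rfl
    intro r' _
    have : ((P.coeff r : ℂ) * (P.coeff r' : ℂ)) = (((P.coeff r : ℝ) * (P.coeff r' : ℝ) : ℝ) : ℂ) := by
      push_cast; rfl
    rw [this, Complex.re_ofReal_mul]
  have hlow : ∀ r ∈ R, ∀ r' ∈ R,
      (if r = r' then (s.card : ℝ) else 0) - s.card / (6 * n) ≤
        ∑ i ∈ s, (e (((r : ℝ) - r') * x i)).re := by
    intro r hr r' hr'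
    have hpos : (0 : ℝ) < s.card / (6 * n) := by positivity
    by_cases h : r = r'
    · subst h
      simp [e_zero]
      positivity
    · rw [if_neg h]
      have hr1 := mem_range.mp hr
      have hr2 := mem_range.mp hr'
      have key : ‖∑ i ∈ s, e (((r : ℝ) - r') * x i)‖ < s.card / (6 * n) := by
        rcases Nat.lt_or_gt_of_ne h with h1 | h1
        · have h2 := hcon (r' - r) (by omega) (by omega)
          rw [Nat.cast_sub h1.le] at h2
          have h3 : ∑ i ∈ s, e (((r : ℝ) - r') * x i) =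
              (starRingEnd ℂ) (∑ i ∈ s, e (((r' : ℝ) - r) * x i)) := by
            rw [map_sum]
            apply Finset.sum_congr rfl
            intro i _
            rw [← e_neg]
            congr 1
            ring
          rw [h3, Complex.norm_conj]
          exact h2
        · have h2 := hcon (r - r') (by omega) (by omega)
          rw [Nat.cast_sub h1.le] at h2
          exact h2
      have h4 : -‖∑ i ∈ s, e (((r : ℝ) - r') * x i)‖ ≤
          (∑ i ∈ s, e (((r : ℝ) - r') * x i)).re := by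
        have := Complex.abs_re_le_norm (∑ i ∈ s, e (((r : ℝ) - r') * x i))
        have := (abs_le.mp this).1
        exact this
      rw [Complex.re_sum] at h4
      linarith
  have hswap : ∑ i ∈ s, ‖(∑ k ∈ range n, (e (x i)) ^ k) ^ 3‖ ^ 2 =
      ∑ r ∈ R, ∑ r' ∈ R, (P.coeff r : ℝ) * (P.coeff r' : ℝ) *
        ∑ i ∈ s, (e (((r : ℝ) - r') * x i)).re := by
    rw [Finset.sum_congr rfl hform, Finset.sum_comm]
    apply Finset.sum_congr rfl
    intro r _
    rw [Finset.sum_comm]
    apply Finset.sum_congr rfl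
    intro r' _
    rw [Finset.mul_sum]
  have hlow2 : ∑ r ∈ R, ∑ r' ∈ R, (P.coeff r : ℝ) * (P.coeff r' : ℝ) *
      ((if r = r' then (s.card : ℝ) else 0) - s.card / (6 * n)) ≤
      ∑ i ∈ s, ‖(∑ k ∈ range n, (e (x i)) ^ k) ^ 3‖ ^ 2 := by
    rw [hswap]
    apply Finset.sum_le_sum
    intro r hr
    apply Finset.sum_le_sum
    intro r' hr'
    exact mul_le_mul_of_nonneg_left (hlow r hr r' hr') (by positivity)
  have hcomp : ∑ r ∈ R, ∑ r' ∈ R, (P.coeff r : ℝ) * (P.coeff r' : ℝ) *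
      ((if r = r' then (s.card : ℝ) else 0) - s.card / (6 * n)) =
      s.card * ∑ r ∈ R, (P.coeff r : ℝ) ^ 2 - s.card / (6 * n) * ((n : ℝ) ^ 3) ^ 2 := by
    have h1 : ∀ r ∈ R, ∑ r' ∈ R, (P.coeff r : ℝ) * (P.coeff r' : ℝ) *
      ((if r = r' then (s.card : ℝ) else 0) - s.card / (6 * n)) =
        s.card * (P.coeff r : ℝ) ^ 2 - s.card / (6 * n) * ((P.coeff r : ℝ) * (n : ℝ) ^ 3) := by
      intro r hr
      simp only [mul_sub, Finset.sum_sub_distrib, mul_ite, mul_zero]
      rw [Finset.sum_ite_eq R r, if_pos hr, ← hsum1, Finset.mul_sum, Finset.mul_sum]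
      congr 1
      · ring
      · apply Finset.sum_congr rfl
        intro r' _
        ring
    rw [Finset.sum_congr rfl h1, Finset.sum_sub_distrib, ← Finset.mul_sum, ← Finset.mul_sum,
      ← Finset.sum_mul, hsum1]
    ring
  have hCS : ((n : ℝ) ^ 3) ^ 2 ≤ (3 * n) * ∑ r ∈ R, (P.coeff r : ℝ) ^ 2 := by
    have h1 := sq_sum_le_card_mul_sum_sq (s := R) (f := fun r => (P.coeff r : ℝ))
    rw [hsum1, hR, card_range] at h1
    refine h1.trans ?_
    apply mul_le_mul_of_nonneg_right _ (by positivity)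
    exact_mod_cast hdeg
  have hfin : (s.card : ℝ) * ((n : ℝ) ^ 5 / 6) ≤ s.card * (1 / (2 * ε)) ^ 6 := by
    refine le_trans ?_ hup2
    refine le_trans ?_ hlow2
    rw [hcomp]
    have h1 : (n : ℝ) ^ 5 / 3 ≤ ∑ r ∈ R, (P.coeff r : ℝ) ^ 2 := by
      have h2 : (n : ℝ) * ((n : ℝ) ^ 5 / 3) ≤ n * ∑ r ∈ R, (P.coeff r : ℝ) ^ 2 := by
        nlinarith [hCS]
      exact le_of_mul_le_mul_left h2 hn0
    have h3 : (s.card : ℝ) / (6 * n) * ((n : ℝ) ^ 3) ^ 2 = s.card * ((n : ℝ) ^ 5 / 6) := by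
      field_simp
    rw [h3]
    nlinarith
  have := lt_of_mul_lt_mul_left (lt_of_le_of_lt hfin (mul_lt_mul_of_pos_left hne hcard)) hcard.le
  exact lt_irrefl _ this

end Pool.Agent.W10.HS
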