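import Pool.Agent.W10.HS.A

namespace Pool.Agent.W10.HS

open Finset

/-- the number with digit one exactly at the positions in `A` -/
def XA (b : ℕ) (A : Finset ℕ) : ℕ := ∑ i ∈ A, b ^ i

/-- the product of cosines -/
noncomputable def Phi (b m : ℕ) (β : ℝ) : ℝ := ∏ i ∈ range m, (‖1 + e (β * b ^ i)‖ / 2)

lemma fac_nonneg (θ : ℝ) : 0 ≤ ‖1 + e θ‖ / 2 := by positivity

lemma fac_le_one (θ : ℝ) : ‖1 + e θ‖ / 2 ≤ 1 := by
  have : ‖1 + e θ‖ ≤ 2 := by
    refine (norm_add_le _ _).trans ?_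
    rw [norm_e]; norm_num
  linarith

lemma Phi_nonneg (b m : ℕ) (β : ℝ) : 0 ≤ Phi b m β := prod_nonneg fun _ _ => fac_nonneg _

lemma Phi_le_one (b m : ℕ) (β : ℝ) : Phi b m β ≤ 1 :=
  prod_le_one (fun _ _ => fac_nonneg _) fun _ _ => fac_le_one _

lemma fac_neg (θ : ℝ) : ‖1 + e (-θ)‖ = ‖1 + e θ‖ := by
  have : (1 + e (-θ)) = (starRingEnd ℂ) (1 + e θ) := by
    rw [e_neg, map_add, map_one]
  rw [this, Complex.norm_conj]

lemma Phi_neg (b m : ℕ) (β : ℝ) : Phi b m (-β) = Phi b m β := by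
  unfold Phi
  apply prod_congr rfl
  intro i _
  rw [neg_mul, fac_neg]

lemma sum_e_XA (b m : ℕ) (β : ℝ) :
    ∑ A ∈ (range m).powerset, e (β * XA b A) = ∏ i ∈ range m, (1 + e (β * b ^ i)) := by
  rw [Finset.prod_one_add]
  apply sum_congr rfl
  intro A _
  rw [← e_sum]
  congr 1
  unfold XA
  push_cast
  rw [mul_sum]

lemma norm_sum_e_XA (b m : ℕ) (β : ℝ) :
    ‖∑ A ∈ (range m).powerset, e (β * XA b A)‖ = 2 ^ m * Phi b m β := by
  rw [sum_e_XA, norm_prod]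
  unfold Phi
  rw [prod_div_distrib]
  simp
  field_simp

lemma cs (b m K : ℕ) (g : ℝ) (Y : ℕ → ℝ) :
    ‖∑ A ∈ (range m).powerset, ∑ k ∈ range K, e (g * ((XA b A : ℝ) + Y k) ^ 2)‖ ^ 2 ≤
      4 ^ m * ∑ k ∈ range K, ∑ k' ∈ range K, Phi b m (2 * g * (Y k - Y k')) := by
  set W : Finset ℕ → ℂ := fun A => ∑ k ∈ range K, e (g * ((XA b A : ℝ) + Y k) ^ 2) with hW
  have h1 : ‖∑ A ∈ (range m).powerset, W A‖ ^ 2 ≤ 2 ^ m * ∑ A ∈ (range m).powerset, ‖W A‖ ^ 2 := by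
    have h2 : ‖∑ A ∈ (range m).powerset, W A‖ ≤ ∑ A ∈ (range m).powerset, ‖W A‖ := norm_sum_le _ _
    have h3 := sq_sum_le_card_mul_sum_sq (s := (range m).powerset) (f := fun A => ‖W A‖)
    rw [card_powerset, card_range] at h3
    refine (pow_le_pow_left₀ (norm_nonneg _) h2 2).trans ?_
    exact_mod_cast h3
  have h4 : ∀ A, ((‖W A‖ ^ 2 : ℝ) : ℂ) = ∑ k ∈ range K, ∑ k' ∈ range K,
      e (g * (Y k ^ 2 - Y k' ^ 2)) * e (2 * g * (Y k - Y k') * XA b A) := by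
    intro A
    push_cast
    rw [← Complex.mul_conj', hW]
    simp only
    rw [map_sum, sum_mul_sum]
    apply sum_congr rfl
    intro k _
    apply sum_congr rfl
    intro k' _
    rw [← e_neg, ← e_add, ← e_add]
    congr 1
    ring
  have h5 : ∑ A ∈ (range m).powerset, ‖W A‖ ^ 2 ≤
      2 ^ m * ∑ k ∈ range K, ∑ k' ∈ range K, Phi b m (2 * g * (Y k - Y k')) := by
    have h6 : ((∑ A ∈ (range m).powerset, ‖W A‖ ^ 2 : ℝ) : ℂ) =
        ∑ k ∈ range K, ∑ k' ∈ range K, e (g * (Y k ^ 2 - Y k' ^ 2)) *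
          ∑ A ∈ (range m).powerset, e (2 * g * (Y k - Y k') * XA b A) := by
      rw [Complex.ofReal_sum, sum_congr rfl (fun A _ => h4 A), sum_comm]
      apply sum_congr rfl
      intro k _
      rw [sum_comm]
      apply sum_congr rfl
      intro k' _
      rw [mul_sum]
    have h7 : ∑ A ∈ (range m).powerset, ‖W A‖ ^ 2 =
        ‖((∑ A ∈ (range m).powerset, ‖W A‖ ^ 2 : ℝ) : ℂ)‖ := by
      rw [Complex.norm_real, Real.norm_of_nonneg]
      exact sum_nonneg fun _ _ => by positivity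
    rw [h7, h6]
    refine (norm_sum_le _ _).trans ?_
    rw [mul_sum]
    apply sum_le_sum
    intro k _
    refine (norm_sum_le _ _).trans ?_
    rw [mul_sum]
    apply sum_le_sum
    intro k' _
    rw [norm_mul, norm_e, one_mul, norm_sum_e_XA]
  calc ‖∑ A ∈ (range m).powerset, W A‖ ^ 2 ≤ 2 ^ m * ∑ A ∈ (range m).powerset, ‖W A‖ ^ 2 := h1
    _ ≤ 2 ^ m * (2 ^ m * ∑ k ∈ range K, ∑ k' ∈ range K, Phi b m (2 * g * (Y k - Y k'))) := by
        apply mul_le_mul_of_nonneg_left h5 (by positivity)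
    _ = 4 ^ m * ∑ k ∈ range K, ∑ k' ∈ range K, Phi b m (2 * g * (Y k - Y k')) := by
        rw [← mul_assoc, ← mul_pow]
        norm_num

/-- If the exponential sum is large, some pair `k' < k` has a large product `Phi`. -/
lemma good_pair (b m n : ℕ) (hn : 1 ≤ n) (g : ℝ) (Y : ℕ → ℝ)
    (h : (2 : ℝ) ^ m * (72 * n ^ 2) / (6 * n) ≤
      ‖∑ A ∈ (range m).powerset, ∑ k ∈ range (72 * n ^ 2), e (g * ((XA b A : ℝ) + Y k) ^ 2)‖) :
    ∃ k k' : ℕ, k' < k ∧ k < 72 * n ^ 2 ∧ 1 / (72 * (n : ℝ) ^ 2) ≤ Phi b m (2 * g * (Y k - Y k')) := by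
  by_contra hcon
  push Not at hcon
  have hn0 : (0 : ℝ) < n := by exact_mod_cast hn
  set K := 72 * n ^ 2 with hK
  have hKr : (K : ℝ) = 72 * (n : ℝ) ^ 2 := by rw [hK]; push_cast; ring
  have hKpos : (0 : ℝ) < K := by rw [hKr]; positivity
  have hoff : ∀ k ∈ range K, ∀ k' ∈ range K, Phi b m (2 * g * (Y k - Y k')) ≤
      (if k = k' then 1 else 0) + 1 / K := by
    intro k hk k' hk'
    by_cases hkk : k = k'
    · rw [if_pos hkk]
      have := Phi_le_one b m (2 * g * (Y k - Y k'))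
      have : (0 : ℝ) < 1 / K := by positivity
      linarith [Phi_le_one b m (2 * g * (Y k - Y k'))]
    · rw [if_neg hkk, zero_add, hKr]
      rcases Nat.lt_or_gt_of_ne hkk with h1 | h1
      · have := hcon k' k h1 (mem_range.mp hk')
        have h2 : 2 * g * (Y k - Y k') = -(2 * g * (Y k' - Y k)) := by ring
        rw [h2, Phi_neg]
        exact this.le
      · exact (hcon k k' h1 (mem_range.mp hk)).le
  have hstrict : ∑ k ∈ range K, ∑ k' ∈ range K, Phi b m (2 * g * (Y k - Y k')) <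
      ∑ k ∈ range K, ∑ k' ∈ range K, ((if k = k' then 1 else 0) + 1 / (K : ℝ)) := by
    apply sum_lt_sum_of_nonempty
    · exact ⟨0, mem_range.mpr (by exact_mod_cast hKpos)⟩
    · intro k hk
      apply sum_lt_sum (fun k' hk' => hoff k hk k' hk')
      refine ⟨k, hk, ?_⟩
      rw [if_pos rfl]
      have := Phi_le_one b m (2 * g * (Y k - Y k))
      have h2 : (0 : ℝ) < 1 / K := by positivity
      linarith
  have hval : ∑ k ∈ range K, ∑ k' ∈ range K, ((if k = k' then 1 else 0) + 1 / (K : ℝ)) = 2 * K := by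
    have h1 : ∀ k ∈ range K, ∑ k' ∈ range K, ((if k = k' then 1 else 0) + 1 / (K : ℝ)) = 2 := by
      intro k hk
      rw [sum_add_distrib, sum_ite_eq (range K) k, if_pos hk]
      simp only [sum_const, card_range, nsmul_eq_mul]
      field_simp
      norm_num
    rw [sum_congr rfl h1]
    simp
    ring
  rw [hval] at hstrict
  have h1 := cs b m K g Y
  have h2 : ((2 : ℝ) ^ m * (72 * n ^ 2) / (6 * n)) ^ 2 ≤
      ‖∑ A ∈ (range m).powerset, ∑ k ∈ range K, e (g * ((XA b A : ℝ) + Y k) ^ 2)‖ ^ 2 :=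
    pow_le_pow_left₀ (by positivity) h 2
  have h3 : ((2 : ℝ) ^ m * (72 * n ^ 2) / (6 * n)) ^ 2 = 4 ^ m * (2 * K) := by
    rw [hKr, div_pow, mul_pow, ← pow_mul, mul_comm m 2, pow_mul]
    norm_num
    field_simp
    ring
  have h4 : (4 : ℝ) ^ m * (2 * K) < 4 ^ m * (2 * K) := by
    calc (4 : ℝ) ^ m * (2 * K) ≤ _ := h3 ▸ h2
      _ ≤ _ := h1
      _ < 4 ^ m * (2 * K) := mul_lt_mul_of_pos_left hstrict (by positivity)
  exact lt_irrefl _ h4

end Pool.Agent.W10.HS
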