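import Pool.Agent.W10.HS.B

namespace Pool.Agent.W10.HS

open Finset

/-- The positive integers all of whose base-`b` digits are `0` or `1`: the sums of `b ^ d` over a
nonempty finite set of exponents `d`. -/
def zeroOne (b : ℕ) : Set ℕ := {s | ∃ S : Finset ℕ, S.Nonempty ∧ s = ∑ d ∈ S, b ^ d}

/-- repunits -/
def rep (b k : ℕ) : ℕ := ∑ i ∈ range k, b ^ i

lemma fac_le_of_nd (b : ℕ) (hb : 2 ≤ b) (θ : ℝ) (h : 1 / (2 * (b : ℝ)) ≤ nd θ) :
    ‖1 + e θ‖ / 2 ≤ 1 - 1 / (2 * (b : ℝ) ^ 2) := by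
  have hb0 : (0 : ℝ) < b := by positivity
  have hb2 : (2 : ℝ) ≤ b := by exact_mod_cast hb
  have h1 := norm_e_sub_one θ
  have h2 : 2 / (b : ℝ) ≤ ‖e θ - 1‖ := by
    refine le_trans ?_ h1
    calc 2 / (b : ℝ) = 4 * (1 / (2 * (b : ℝ))) := by field_simp; norm_num
      _ ≤ 4 * nd θ := by linarith
  have h3 := parallelogram_law_with_norm ℝ (1 : ℂ) (e θ)
  rw [norm_one, norm_e] at h3
  have h4 : ‖(1 : ℂ) - e θ‖ = ‖e θ - 1‖ := norm_sub_rev _ _
  rw [h4] at h3
  have h5 : (2 / (b : ℝ)) * (2 / (b : ℝ)) ≤ ‖e θ - 1‖ * ‖e θ - 1‖ :=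
    mul_self_le_mul_self (by positivity) h2
  have h6 : 1 / (b : ℝ) ^ 2 = (2 / (b : ℝ)) * (2 / (b : ℝ)) / 4 := by field_simp; norm_num
  have hx : 0 < 1 / (b : ℝ) ^ 2 := by positivity
  have hx1 : 1 / (b : ℝ) ^ 2 ≤ 1 / 4 := by
    apply one_div_le_one_div_of_le (by norm_num)
    nlinarith
  have h7 : 1 / (2 * (b : ℝ) ^ 2) = (1 / (b : ℝ) ^ 2) / 2 := by field_simp
  rw [h7]
  set x := 1 / (b : ℝ) ^ 2
  have h8 : ‖1 + e θ‖ * ‖1 + e θ‖ ≤ 4 - 4 * x := by nlinarith
  have h9 : (‖1 + e θ‖ / 2) ^ 2 ≤ (1 - x / 2) ^ 2 := by nlinarith [norm_nonneg (1 + e θ)]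
  exact le_of_sq_le_sq h9 (by linarith)
where
  le_of_sq_le_sq {a c : ℝ} (h : a ^ 2 ≤ c ^ 2) (hc : 0 ≤ c) : a ≤ c := by
    nlinarith [sq_nonneg (a - c), sq_nonneg (a + c), abs_le_of_sq_le_sq' h hc]

lemma block_prod (φ : ℕ → ℝ) (κ : ℝ) (h0 : ∀ i, 0 ≤ φ i) (h1 : ∀ i, φ i ≤ 1) (hκ : 0 ≤ κ)
    (L B : ℕ) (hbad : ∀ u < B, ∃ v < L, φ (u * L + v) ≤ κ) :
    ∏ i ∈ range (B * L), φ i ≤ κ ^ B := by
  induction B with
  | zero => simp
  | succ B ih =>
    rw [show (B + 1) * L = B * L + L by ring, prod_range_add, pow_succ]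
    have h2 := ih (fun u hu => hbad u (by omega))
    obtain ⟨v, hv, hv2⟩ := hbad B (by omega)
    have h3 : ∏ x ∈ range L, φ (B * L + x) ≤ κ := by
      rw [← mul_prod_erase (range L) _ (mem_range.mpr hv)]
      calc φ (B * L + v) * ∏ x ∈ (range L).erase v, φ (B * L + x)
          ≤ κ * 1 := by
            apply mul_le_mul hv2 _ (prod_nonneg fun _ _ => h0 _) hκ
            exact prod_le_one (fun _ _ => h0 _) (fun _ _ => h1 _)
        _ = κ := mul_one _
    exact mul_le_mul h2 h3 (prod_nonneg fun _ _ => h0 _) (pow_nonneg hκ _)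

lemma nd_mul_base (b : ℕ) (hb : 2 ≤ b) (z : ℝ) (h : nd z < 1 / (2 * (b : ℝ))) :
    nd (z * b) = nd z * b := by
  have hb0 : (0 : ℝ) < b := by positivity
  have h1 : |z * b - ((round z * (b : ℤ) : ℤ) : ℝ)| = nd z * b := by
    push_cast
    rw [← sub_mul, abs_mul, abs_of_pos hb0]
    rfl
  rw [← h1]
  apply nd_eq
  rw [h1]
  have h2 : nd z * b ≤ 1 / (2 * (b : ℝ)) * b := mul_le_mul_of_nonneg_right h.le hb0.le
  refine h2.trans (le_of_eq ?_)
  field_simp

lemma run (b : ℕ) (hb : 2 ≤ b) (L : ℕ) : ∀ z : ℝ, (∀ v < L, nd (z * b ^ v) < 1 / (2 * (b : ℝ))) →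
    nd z ≤ 1 / (2 * (b : ℝ) ^ L) := by
  have hb0 : (0 : ℝ) < b := by positivity
  induction L with
  | zero =>
    intro z _
    simpa using nd_le_half z
  | succ L ih =>
    intro z hz
    have h0 := hz 0 (by omega)
    rw [pow_zero, mul_one] at h0
    have h1 := ih (z * b) (by
      intro v hv
      have := hz (v + 1) (by omega)
      rw [pow_succ'] at this
      rw [mul_assoc]
      exact this)
    rw [nd_mul_base b hb z h0] at h1
    rw [le_div_iff₀ (by positivity)] at h1 ⊢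
    calc nd z * (2 * (b : ℝ) ^ (L + 1)) = nd z * b * (2 * b ^ L) := by ring
      _ ≤ 1 := h1

lemma rep_mul (b j l : ℕ) : rep b j * (∑ i ∈ range l, b ^ (j * i)) = rep b (j * l) := by
  induction l with
  | zero => simp [rep]
  | succ l ih =>
    rw [sum_range_succ, mul_add, ih, mul_add, mul_one]
    unfold rep
    rw [sum_range_add]
    congr 1
    rw [sum_mul]
    apply sum_congr rfl
    intro i _
    rw [pow_add, mul_comm]

lemma rep_sub (b k k' : ℕ) (h : k' ≤ k) :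
    rep b k = rep b k' + b ^ k' * rep b (k - k') := by
  obtain ⟨d, rfl⟩ := Nat.exists_eq_add_of_le h
  unfold rep
  rw [sum_range_add, Nat.add_sub_cancel_left, mul_sum]
  congr 1
  apply sum_congr rfl
  intro i _
  rw [pow_add]

/-- The last step: if `2 h r_j b^(n0) γ` is very close to an integer, a block of ones works. -/
lemma last_step (b : ℕ) (hb : 2 ≤ b) (γ : ℝ) (h j n0 L : ℕ) (hh : 1 ≤ h) (hj : 1 ≤ j)
    (hnd : nd (2 * h * γ * b ^ n0 * rep b j) ≤ 1 / (2 * (b : ℝ) ^ L)) :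
    ∃ s ∈ zeroOne b, s < b ^ ((n0 + 1) / 2 + 2 * h * j) ∧
      nd ((s : ℝ) ^ 2 * γ) ≤ (b : ℝ) ^ (1 + 4 * h * j) / (2 * (b : ℝ) ^ L) := by
  have hb0 : (0 : ℝ) < b := by positivity
  set G : ℕ → ℕ := fun l => ∑ i ∈ range l, b ^ (j * i) with hG
  obtain ⟨l, hl, l', hl', hne, hmod⟩ := Finset.exists_ne_map_eq_of_card_lt_of_maps_to
    (s := range (2 * h + 1)) (t := range (2 * h)) (f := fun l => G l % (2 * h))
    (by simp) (fun l _ => mem_coe.mpr (mem_range.mpr (Nat.mod_lt _ (by omega))))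
  wlog hlt : l' < l generalizing l l'
  · exact this l' hl' l hl (Ne.symm hne) hmod.symm (by omega)
  have hl2 : l ≤ 2 * h := by have := mem_range.mp hl; omega
  have hGmono : G l' ≤ G l := by
    apply sum_le_sum_of_subset
    exact range_mono hlt.le
  obtain ⟨V, hV⟩ : 2 * h ∣ G l - G l' := (Nat.modEq_iff_dvd' hGmono).mp hmod.symm
  set U := G l - G l' with hU
  -- the block
  set t := (n0 + 1) / 2 with ht
  have hjl : j * l' < j * l := Nat.mul_lt_mul_of_pos_left hlt (by omega)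
  have hblock : rep b j * U = ∑ d ∈ Ico (j * l') (j * l), b ^ d := by
    rw [hU, Nat.mul_sub, rep_mul, rep_mul]
    unfold rep
    rw [Nat.sub_eq_iff_eq_add (sum_le_sum_of_subset (range_mono hjl.le))]
    rw [range_eq_Ico, range_eq_Ico, add_comm, sum_Ico_consecutive _ (Nat.zero_le _) hjl.le]
  set s := ∑ d ∈ Ico (t + j * l') (t + j * l), b ^ d with hs
  have hs2 : s = b ^ t * (rep b j * U) := by
    rw [hblock, mul_sum, hs, add_comm t (j * l'), add_comm t (j * l),
      ← sum_Ico_add' (fun d => b ^ d) (j * l') (j * l) t]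
    apply sum_congr rfl
    intro i _
    rw [pow_add, mul_comm]
  have hrepU : rep b j * U < b ^ (j * l) := by
    rw [hblock]
    apply Nat.geomSum_lt hb
    intro k hk
    exact (mem_Ico.mp hk).2
  have h3 : j * l ≤ 2 * h * j := by
    rw [mul_comm (2 * h) j]
    exact Nat.mul_le_mul_left _ hl2
  have hrep1 : 1 ≤ rep b j := by
    unfold rep
    have : b ^ 0 ≤ ∑ i ∈ range j, b ^ i :=
      single_le_sum (f := fun i => b ^ i) (fun _ _ => Nat.zero_le _) (mem_range.mpr hj)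
    simpa using this
  refine ⟨s, ⟨Ico (t + j * l') (t + j * l), ?_, rfl⟩, ?_, ?_⟩
  · rw [nonempty_Ico]; omega
  · rw [hs]
    apply Nat.geomSum_lt hb
    intro k hk
    have := (mem_Ico.mp hk).2
    omega
  · have h2t : 2 * t = n0 + (2 * t - n0) := by omega
    have h2t1 : 2 * t - n0 ≤ 1 := by omega
    set q := 2 * t - n0 with hq
    have hUle : U ≤ rep b j * U := Nat.le_mul_of_pos_left _ hrep1
    have hVU : V ≤ U := by
      rw [hV]
      exact Nat.le_mul_of_pos_left _ (by omega)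
    have hM : b ^ q * (rep b j * U) * V ≤ b ^ (1 + 4 * h * j) := by
      have e1 : b ^ q ≤ b ^ 1 := Nat.pow_le_pow_right (by omega) h2t1
      have e2 : rep b j * U ≤ b ^ (2 * h * j) :=
        hrepU.le.trans (Nat.pow_le_pow_right (by omega) h3)
      have e3 : V ≤ b ^ (2 * h * j) := (hVU.trans hUle).trans e2
      calc b ^ q * (rep b j * U) * V ≤ b ^ 1 * b ^ (2 * h * j) * b ^ (2 * h * j) :=
            Nat.mul_le_mul (Nat.mul_le_mul e1 e2) e3
        _ = b ^ (1 + 4 * h * j) := by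
            rw [← pow_add, ← pow_add]
            congr 1
            ring
    have hsq : (s : ℝ) ^ 2 * γ =
        ((b ^ q * (rep b j * U) * V : ℕ) : ℝ) * (2 * h * γ * b ^ n0 * rep b j) := by
      have e1 : ((s * s : ℕ) : ℝ) = ((b ^ q * (rep b j * U) * V * (2 * h * b ^ n0 * rep b j) : ℕ) : ℝ) := by
        congr 1
        rw [hs2]
        calc b ^ t * (rep b j * U) * (b ^ t * (rep b j * U))
            = b ^ (2 * t) * (rep b j * U) * (rep b j) * U := by
              rw [two_mul, pow_add]; ring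
          _ = b ^ (n0 + q) * (rep b j * U) * (rep b j) * (2 * h * V) := by
              rw [h2t, hV]
          _ = _ := by rw [pow_add]; ring
      push_cast at e1 ⊢
      rw [pow_two, e1]
      ring
    rw [hsq]
    refine (nd_nat_mul _ _).trans ?_
    rw [div_eq_mul_one_div]
    apply mul_le_mul _ hnd (nd_nonneg _) (by positivity)
    exact_mod_cast hM

end Pool.Agent.W10.HS
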