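import Pool.Agent.W10.HS.C

namespace Pool.Agent.W10.HS

open Finset

lemma cs' {ι : Type*} (b m : ℕ) (T : Finset ι) (g : ℝ) (Y : ι → ℝ) :
    ‖∑ A ∈ (range m).powerset, ∑ k ∈ T, e (g * ((XA b A : ℝ) + Y k) ^ 2)‖ ^ 2 ≤
      4 ^ m * ∑ k ∈ T, ∑ k' ∈ T, Phi b m (2 * g * (Y k - Y k')) := by
  set W : Finset ℕ → ℂ := fun A => ∑ k ∈ T, e (g * ((XA b A : ℝ) + Y k) ^ 2) with hW
  have h1 : ‖∑ A ∈ (range m).powerset, W A‖ ^ 2 ≤ 2 ^ m * ∑ A ∈ (range m).powerset, ‖W A‖ ^ 2 := by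
    have h2 : ‖∑ A ∈ (range m).powerset, W A‖ ≤ ∑ A ∈ (range m).powerset, ‖W A‖ := norm_sum_le _ _
    have h3 := sq_sum_le_card_mul_sum_sq (s := (range m).powerset) (f := fun A => ‖W A‖)
    rw [card_powerset, card_range] at h3
    refine (pow_le_pow_left₀ (norm_nonneg _) h2 2).trans ?_
    exact_mod_cast h3
  have h4 : ∀ A, ((‖W A‖ ^ 2 : ℝ) : ℂ) = ∑ k ∈ T, ∑ k' ∈ T,
      e (g * (Y k ^ 2 - Y k' ^ 2)) * e (2 * g * (Y k - Y k') * XA b A) := by
    intro A
    push_cast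
    rw [← Complex.mul_conj', hW]
    simp only
    rw [map_sum, sum_mul_sum]
    apply sum_congr rfl
    intro k _
    apply sum_congr rfl
    intro k' _
    rw [← e_neg, ← e_add, ← e_add]
    congr 1
    ring
  have h5 : ∑ A ∈ (range m).powerset, ‖W A‖ ^ 2 ≤
      2 ^ m * ∑ k ∈ T, ∑ k' ∈ T, Phi b m (2 * g * (Y k - Y k')) := by
    have h6 : ((∑ A ∈ (range m).powerset, ‖W A‖ ^ 2 : ℝ) : ℂ) =
        ∑ k ∈ T, ∑ k' ∈ T, e (g * (Y k ^ 2 - Y k' ^ 2)) *
          ∑ A ∈ (range m).powerset, e (2 * g * (Y k - Y k') * XA b A) := by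
      rw [Complex.ofReal_sum, sum_congr rfl (fun A _ => h4 A), sum_comm]
      apply sum_congr rfl
      intro k _
      rw [sum_comm]
      apply sum_congr rfl
      intro k' _
      rw [mul_sum]
    have h7 : ∑ A ∈ (range m).powerset, ‖W A‖ ^ 2 =
        ‖((∑ A ∈ (range m).powerset, ‖W A‖ ^ 2 : ℝ) : ℂ)‖ := by
      rw [Complex.norm_real, Real.norm_of_nonneg]
      exact sum_nonneg fun _ _ => by positivity
    rw [h7, h6]
    refine (norm_sum_le _ _).trans ?_
    rw [mul_sum]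
    apply sum_le_sum
    intro k _
    refine (norm_sum_le _ _).trans ?_
    rw [mul_sum]
    apply sum_le_sum
    intro k' _
    rw [norm_mul, norm_e, one_mul, norm_sum_e_XA]
  calc ‖∑ A ∈ (range m).powerset, W A‖ ^ 2 ≤ 2 ^ m * ∑ A ∈ (range m).powerset, ‖W A‖ ^ 2 := h1
    _ ≤ 2 ^ m * (2 ^ m * ∑ k ∈ T, ∑ k' ∈ T, Phi b m (2 * g * (Y k - Y k'))) := by
        apply mul_le_mul_of_nonneg_left h5 (by positivity)
    _ = 4 ^ m * ∑ k ∈ T, ∑ k' ∈ T, Phi b m (2 * g * (Y k - Y k')) := by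
        rw [← mul_assoc, ← mul_pow]
        norm_num

/-- If the exponential sum is large, some pair `k ≠ k'` has a large product `Phi`. -/
lemma good_pair' {ι : Type*} [DecidableEq ι] (b m n : ℕ) (hn : 1 ≤ n) (T : Finset ι)
    (hT : 72 * n ^ 2 ≤ T.card) (g : ℝ) (Y : ι → ℝ)
    (h : (2 : ℝ) ^ m * T.card / (6 * n) ≤
      ‖∑ A ∈ (range m).powerset, ∑ k ∈ T, e (g * ((XA b A : ℝ) + Y k) ^ 2)‖) :
    ∃ k ∈ T, ∃ k' ∈ T, k ≠ k' ∧ 1 / (72 * (n : ℝ) ^ 2) ≤ Phi b m (2 * g * (Y k - Y k')) := by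
  by_contra hcon
  push Not at hcon
  have hn0 : (0 : ℝ) < n := by exact_mod_cast hn
  set K := T.card with hK
  have hKr : 72 * (n : ℝ) ^ 2 ≤ K := by exact_mod_cast hT
  have hKpos : (0 : ℝ) < K := lt_of_lt_of_le (by positivity) hKr
  have hTne : T.Nonempty := by
    rw [← card_pos, ← hK]
    exact_mod_cast hKpos
  set δ : ℝ := 1 / (72 * (n : ℝ) ^ 2) with hδ
  have hδ0 : 0 < δ := by positivity
  have hoff : ∀ k ∈ T, ∀ k' ∈ T, Phi b m (2 * g * (Y k - Y k')) ≤
      (if k = k' then 1 else 0) + δ := by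
    intro k hk k' hk'
    by_cases hkk : k = k'
    · rw [if_pos hkk]
      linarith [Phi_le_one b m (2 * g * (Y k - Y k'))]
    · rw [if_neg hkk, zero_add]
      exact (hcon k hk k' hk' hkk).le
  have hstrict : ∑ k ∈ T, ∑ k' ∈ T, Phi b m (2 * g * (Y k - Y k')) <
      ∑ k ∈ T, ∑ k' ∈ T, ((if k = k' then 1 else 0) + δ) := by
    apply sum_lt_sum_of_nonempty hTne
    intro k hk
    apply sum_lt_sum (fun k' hk' => hoff k hk k' hk')
    refine ⟨k, hk, ?_⟩
    rw [if_pos rfl]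
    linarith [Phi_le_one b m (2 * g * (Y k - Y k))]
  have hval : ∑ k ∈ T, ∑ k' ∈ T, ((if k = k' then 1 else 0) + δ) = K * (1 + K * δ) := by
    have h1 : ∀ k ∈ T, ∑ k' ∈ T, ((if k = k' then 1 else 0) + δ) = 1 + K * δ := by
      intro k hk
      rw [sum_add_distrib, sum_ite_eq T k, if_pos hk]
      simp only [sum_const, nsmul_eq_mul]
      rfl
    rw [sum_congr rfl h1]
    simp only [sum_const, nsmul_eq_mul]
    rfl
  rw [hval] at hstrict
  have h1 := cs' b m T g Y
  have h2 : ((2 : ℝ) ^ m * K / (6 * n)) ^ 2 ≤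
      ‖∑ A ∈ (range m).powerset, ∑ k ∈ T, e (g * ((XA b A : ℝ) + Y k) ^ 2)‖ ^ 2 :=
    pow_le_pow_left₀ (by positivity) h 2
  have h3 : ((2 : ℝ) ^ m * K / (6 * n)) ^ 2 = 4 ^ m * (K * (2 * K * δ)) := by
    rw [hδ, div_pow, mul_pow, ← pow_mul, mul_comm m 2, pow_mul]
    norm_num
    field_simp
    ring
  have h4 : (4 : ℝ) ^ m * (K * (2 * K * δ)) < 4 ^ m * (K * (1 + K * δ)) := by
    calc (4 : ℝ) ^ m * (K * (2 * K * δ)) ≤ _ := h3 ▸ h2
      _ ≤ _ := h1
      _ < _ := mul_lt_mul_of_pos_left hstrict (by positivity)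
  have h5 : 2 * K * δ < 1 + K * δ :=
    lt_of_mul_lt_mul_left (lt_of_mul_lt_mul_left h4 (by positivity)) hKpos.le
  have h6 : 1 ≤ K * δ := by
    rw [hδ, mul_one_div, le_div_iff₀ (by positivity)]
    linarith
  linarith

/-- geometric sums of roots of unity -/
lemma orth (Q x : ℕ) (hQ : 1 ≤ Q) :
    ∑ a ∈ range Q, e ((a : ℝ) * ((x : ℝ) / Q)) = if Q ∣ x then (Q : ℂ) else 0 := by
  have hQ0 : (0 : ℝ) < Q := by exact_mod_cast hQ
  have h1 : ∑ a ∈ range Q, e ((a : ℝ) * ((x : ℝ) / Q)) = ∑ a ∈ range Q, (e ((x : ℝ) / Q)) ^ a := by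
    apply sum_congr rfl
    intro a _
    rw [e_nat_mul]
  rw [h1]
  split_ifs with hd
  · obtain ⟨c, rfl⟩ := hd
    have h2 : e (((Q * c : ℕ) : ℝ) / Q) = 1 := by
      have : ((Q * c : ℕ) : ℝ) / Q = ((c : ℤ) : ℝ) := by push_cast; field_simp
      rw [this, e_int]
    rw [h2]
    simp
  · have hz : e ((x : ℝ) / Q) ≠ 1 := by
      intro hz
      have h3 := norm_e_sub_one ((x : ℝ) / Q)
      rw [hz, sub_self, norm_zero] at h3
      have h4 : nd ((x : ℝ) / Q) = 0 := le_antisymm (by linarith) (nd_nonneg _)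
      unfold nd at h4
      rw [abs_eq_zero, sub_eq_zero] at h4
      apply hd
      have h5 : (x : ℝ) = Q * (round ((x : ℝ) / Q) : ℤ) := by
        rw [← h4]
        field_simp
      have h6 : (x : ℤ) = Q * round ((x : ℝ) / Q) := by exact_mod_cast h5
      exact Int.natCast_dvd_natCast.mp ⟨_, h6⟩
    have h7 := geom_sum_mul (e ((x : ℝ) / Q)) Q
    have h8 : (e ((x : ℝ) / Q)) ^ Q = 1 := by
      rw [← e_nat_mul]
      have : (Q : ℝ) * ((x : ℝ) / Q) = ((x : ℤ) : ℝ) := by push_cast; field_simp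
      rw [this, e_int]
    rw [h8, sub_self] at h7
    exact (mul_eq_zero.mp h7).resolve_right (sub_ne_zero.mpr hz)

lemma dvd_of_nd_lt (Q x : ℕ) (hQ : 1 ≤ Q) (h : nd ((x : ℝ) / Q) < 1 / Q) : Q ∣ x := by
  have hQ0 : (0 : ℝ) < Q := by exact_mod_cast hQ
  unfold nd at h
  set r := round ((x : ℝ) / Q) with hr
  have h1 : |(x : ℝ) - Q * r| < 1 := by
    have h2 : (x : ℝ) - Q * r = Q * ((x : ℝ) / Q - r) := by field_simp
    rw [h2, abs_mul, abs_of_pos hQ0]
    calc (Q : ℝ) * |(x : ℝ) / Q - r| < Q * (1 / Q) := mul_lt_mul_of_pos_left h hQ0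
      _ = 1 := by field_simp
  have h3 : |(x : ℤ) - Q * r| < 1 := by exact_mod_cast h1
  have h4 : (x : ℤ) - Q * r = 0 := Int.abs_lt_one_iff.mp h3
  exact Int.natCast_dvd_natCast.mp ⟨r, by linarith⟩

lemma dvd_stable (b Q a c i : ℕ) (hb : 2 ≤ b) (hQ : 1 ≤ Q) (hc : Q ≤ 2 ^ c)
    (h : Q ∣ a * b ^ (c + i)) : Q ∣ a * b ^ c := by
  rcases Nat.eq_zero_or_pos a with rfl | ha
  · simp
  have hbc : ∀ k, b ^ k ≠ 0 := fun k => by positivity
  rw [← Nat.factorization_prime_le_iff_dvd (by omega) (mul_ne_zero ha.ne' (hbc _))] at h ⊢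
  intro p hp
  have h1 := h p hp
  rw [Nat.factorization_mul ha.ne' (hbc _), Nat.factorization_pow] at h1 ⊢
  simp only [Finsupp.add_apply, Finsupp.smul_apply, smul_eq_mul] at h1 ⊢
  rcases Nat.eq_zero_or_pos (b.factorization p) with h0 | h0
  · rw [h0] at h1 ⊢
    simpa using h1
  · have h2 : Q.factorization p ≤ c := by
      apply Nat.factorization_le_of_le_pow
      exact hc.trans (Nat.pow_le_pow_left hp.two_le c)
    have h3 : c ≤ c * b.factorization p := Nat.le_mul_of_pos_right _ h0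
    omega

/-- powers of `κ = 1 - 1/(2b²)` -/
lemma kappa_pow' (b : ℕ) (hb : 2 ≤ b) (x : ℕ) :
    (1 - 1 / (2 * (b : ℝ) ^ 2)) ^ (2 * b ^ 3 * x) ≤ 1 / (b : ℝ) ^ x := by
  have hb2 : (2 : ℝ) ≤ b := by exact_mod_cast hb
  have hb0 : (0 : ℝ) < b := by linarith
  have h1 : 1 - 1 / (2 * (b : ℝ) ^ 2) ≤ Real.exp (-(1 / (2 * (b : ℝ) ^ 2))) :=
    Real.one_sub_le_exp_neg _
  have h0 : 0 ≤ 1 - 1 / (2 * (b : ℝ) ^ 2) := by
    rw [sub_nonneg, div_le_one (by positivity)]
    nlinarith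
  have h2 : (1 - 1 / (2 * (b : ℝ) ^ 2)) ^ (2 * b ^ 3 * x) ≤ (Real.exp (-(b : ℝ))) ^ x := by
    refine (pow_le_pow_left₀ h0 h1 _).trans (le_of_eq ?_)
    rw [← Real.exp_nat_mul, ← Real.exp_nat_mul]
    congr 1
    push_cast
    field_simp
  refine h2.trans ?_
  rw [Real.exp_neg, inv_pow, one_div]
  apply inv_anti₀ (by positivity)
  apply pow_le_pow_left₀ hb0.le
  linarith [Real.add_one_le_exp (b : ℝ)]

lemma kappa_nonneg (b : ℕ) (hb : 2 ≤ b) : 0 ≤ 1 - 1 / (2 * (b : ℝ) ^ 2) := by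
  have hb2 : (2 : ℝ) ≤ b := by exact_mod_cast hb
  rw [sub_nonneg, div_le_one (by positivity)]
  nlinarith

/-- A large value of `Phi` forces a very good approximation at some position. -/
lemma window (b : ℕ) (hb : 2 ≤ b) (B L : ℕ) (β : ℝ)
    (h : (1 - 1 / (2 * (b : ℝ) ^ 2)) ^ B < Phi b (B * L) β) :
    ∃ u < B, nd (β * b ^ (u * L)) ≤ 1 / (2 * (b : ℝ) ^ L) := by
  have hblock : ∃ u < B, ∀ v < L, nd (β * b ^ (u * L + v)) < 1 / (2 * (b : ℝ)) := by
    by_contra hcon
    push Not at hcon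
    have e1 : ∏ i ∈ range (B * L), (fun i => ‖1 + e (β * b ^ i)‖ / 2) i ≤
        (1 - 1 / (2 * (b : ℝ) ^ 2)) ^ B := by
      apply block_prod _ _ (fun i => fac_nonneg _) (fun i => fac_le_one _) (kappa_nonneg b hb)
      intro u hu
      obtain ⟨v, hv, hv2⟩ := hcon u hu
      exact ⟨v, hv, fac_le_of_nd b hb _ hv2⟩
    exact absurd h (not_lt.mpr e1)
  obtain ⟨u, hu, hv⟩ := hblock
  refine ⟨u, hu, run b hb L (β * b ^ (u * L)) ?_⟩
  intro v hvL
  have := hv v hvL
  rw [pow_add, ← mul_assoc] at this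
  exact this

/-- The number of digits needed for a multiple of `Q ≤ b ^ R`. -/
def EE (b R : ℕ) : ℕ := b * R + 2 * b ^ 3 * (R + 1) * (R + 1)

/-- Every positive integer `Q ≤ b ^ R` has a positive multiple with digits `0` and `1` only and
at most `EE b R` digits. -/
lemma exists_multiple (b Q R : ℕ) (hb : 2 ≤ b) (hQ : 1 ≤ Q) (hQR : Q ≤ b ^ R) :
    ∃ s ∈ zeroOne b, Q ∣ s ∧ s < b ^ EE b R := by
  have hb2 : (2 : ℝ) ≤ b := by exact_mod_cast hb
  have hb0 : (0 : ℝ) < b := by linarith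
  have hQ0 : (0 : ℝ) < Q := by exact_mod_cast hQ
  set c := b * R with hc
  set B := 2 * b ^ 3 * (R + 1) with hB
  set d := B * (R + 1) with hd
  have hQc : Q ≤ 2 ^ c := by
    rw [hc, pow_mul]
    exact hQR.trans (Nat.pow_le_pow_left (Nat.lt_pow_self (by norm_num)).le R)
  by_contra hcon
  push Not at hcon
  have hno : ∀ A ∈ (range d).powerset, A ≠ ∅ → ¬ (Q ∣ b ^ c * XA b A) := by
    intro A hA hne hdvd
    rw [mem_powerset] at hA
    have hmem : b ^ c * XA b A ∈ zeroOne b := by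
      refine ⟨A.map (addLeftEmbedding c), ?_, ?_⟩
      · rw [map_nonempty]; exact nonempty_iff_ne_empty.mpr hne
      · unfold XA
        rw [sum_map, mul_sum]
        apply sum_congr rfl
        intro i _
        rw [addLeftEmbedding_apply, pow_add]
    have h1 := hcon _ hmem hdvd
    have h2 : XA b A < b ^ d := Nat.geomSum_lt hb (fun i hi => mem_range.mp (hA hi))
    have h3 : b ^ c * XA b A < b ^ EE b R := by
      have : EE b R = c + d := by unfold EE; rw [hd, hB, hc]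
      rw [this, pow_add]
      exact Nat.mul_lt_mul_of_pos_left h2 (by positivity)
    omega
  -- the double sum
  set S : ℂ := ∑ a ∈ range Q, ∑ A ∈ (range d).powerset, e ((a : ℝ) / Q * b ^ c * XA b A) with hS
  have hS1 : S = Q := by
    rw [hS, sum_comm, sum_eq_single ∅]
    · unfold XA
      simp [e_zero]
    · intro A hA hne
      have h1 := orth Q (b ^ c * XA b A) hQ
      rw [if_neg (hno A hA hne)] at h1
      rw [← h1]
      apply sum_congr rfl
      intro a _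
      congr 1
      push_cast
      ring
    · intro h
      exact absurd (empty_mem_powerset _) h
  have hrow : ∀ a ∈ range Q, (if a = 0 then (2 : ℝ) ^ d else 0) - 2 ^ d / (2 * Q) ≤
      (∑ A ∈ (range d).powerset, e ((a : ℝ) / Q * b ^ c * XA b A)).re := by
    intro a ha
    have hpos : (0 : ℝ) < 2 ^ d / (2 * Q) := by positivity
    by_cases hdv : Q ∣ a * b ^ c
    · have h1 : ∀ A ∈ (range d).powerset, e ((a : ℝ) / Q * b ^ c * XA b A) = 1 := by
        intro A _
        obtain ⟨q, hq⟩ := hdv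
        have h2 : (a : ℝ) * b ^ c = Q * q := by exact_mod_cast hq
        have h3 : (a : ℝ) / Q * b ^ c * XA b A = (((q * XA b A : ℕ) : ℤ) : ℝ) := by
          have h4 : (a : ℝ) / Q * b ^ c = q := by
            rw [div_mul_eq_mul_div, h2]
            field_simp
          rw [h4]
          push_cast
          ring
        rw [h3, e_int]
      rw [sum_congr rfl h1]
      simp only [sum_const, card_powerset, card_range, nsmul_eq_mul, mul_one]
      have h5 : (((2 ^ d : ℕ) : ℂ)).re = (2 : ℝ) ^ d := by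
        rw [Complex.natCast_re]; push_cast; rfl
      rw [h5]
      split_ifs
      · linarith
      · have : (0 : ℝ) < 2 ^ d := by positivity
        linarith
    · have ha0 : a ≠ 0 := by
        rintro rfl
        simp at hdv
      rw [if_neg ha0, zero_sub]
      have h1 : ‖∑ A ∈ (range d).powerset, e ((a : ℝ) / Q * b ^ c * XA b A)‖ ≤ 2 ^ d / (2 * Q) := by
        rw [norm_sum_e_XA]
        have h2 : Phi b (B * (R + 1)) ((a : ℝ) / Q * b ^ c) ≤ (1 - 1 / (2 * (b : ℝ) ^ 2)) ^ B := by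
          by_contra h3
          push Not at h3
          obtain ⟨u, hu, hu2⟩ := window b hb B (R + 1) _ h3
          have h4 : nd (((a * b ^ (c + u * (R + 1)) : ℕ) : ℝ) / Q) < 1 / Q := by
            have h5 : ((a * b ^ (c + u * (R + 1)) : ℕ) : ℝ) / Q =
                (a : ℝ) / Q * b ^ c * b ^ (u * (R + 1)) := by
              push_cast
              rw [pow_add]
              ring
            rw [h5]
            refine lt_of_le_of_lt hu2 ?_
            apply one_div_lt_one_div_of_lt hQ0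
            have h6 : (Q : ℝ) ≤ (b : ℝ) ^ R := by exact_mod_cast hQR
            have h7 : (b : ℝ) ^ R ≤ (b : ℝ) ^ (R + 1) :=
              pow_le_pow_right₀ (by linarith) (by omega)
            have h8 : (0 : ℝ) < (b : ℝ) ^ R := by positivity
            linarith
          exact hdv (dvd_stable b Q a c _ hb hQ hQc (dvd_of_nd_lt Q _ hQ h4))
        have h9 := kappa_pow' b hb (R + 1)
        rw [← hB] at h9
        have h10 : 1 / (b : ℝ) ^ (R + 1) ≤ 1 / (2 * Q) := by
          apply one_div_le_one_div_of_le (by positivity)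
          have h6 : (Q : ℝ) ≤ (b : ℝ) ^ R := by exact_mod_cast hQR
          rw [pow_succ']
          exact mul_le_mul hb2 h6 hQ0.le hb0.le
        calc (2 : ℝ) ^ d * Phi b d ((a : ℝ) / Q * b ^ c) ≤ 2 ^ d * (1 / (2 * Q)) := by
              apply mul_le_mul_of_nonneg_left _ (by positivity)
              exact h2.trans (h9.trans h10)
          _ = 2 ^ d / (2 * Q) := by ring
      have h2 := Complex.abs_re_le_norm (∑ A ∈ (range d).powerset, e ((a : ℝ) / Q * b ^ c * XA b A))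
      have h3 := (abs_le.mp h2).1
      linarith
  have hSre : (2 : ℝ) ^ d / 2 ≤ S.re := by
    rw [hS, Complex.re_sum]
    refine le_trans (le_of_eq ?_) (sum_le_sum hrow)
    rw [sum_sub_distrib, sum_ite_eq' (range Q) 0, if_pos (mem_range.mpr (by omega))]
    simp only [sum_const, card_range, nsmul_eq_mul]
    field_simp
    norm_num
  rw [hS1] at hSre
  have h1 : ((Q : ℂ)).re = (Q : ℝ) := Complex.natCast_re Q
  rw [h1] at hSre
  have h2 : (2 * Q : ℝ) < 2 ^ d := by
    have h3 : 2 * Q < 2 ^ d := by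
      calc 2 * Q ≤ 2 * 2 ^ c := Nat.mul_le_mul_left _ hQc
        _ = 2 ^ (c + 1) := by rw [pow_succ]; ring
        _ < 2 ^ d := by
          apply Nat.pow_lt_pow_right (by norm_num)
          have e2 : 8 ≤ b ^ 3 := by
            calc 8 = 2 ^ 3 := by norm_num
              _ ≤ b ^ 3 := Nat.pow_le_pow_left hb 3
          have e3 : b ≤ b ^ 3 := Nat.le_self_pow (by norm_num) b
          have e4 : (R + 1) ≤ (R + 1) * (R + 1) := Nat.le_mul_of_pos_left _ (by omega)
          calc c + 1 < b * (R + 1) + (R + 1) * 8 := by rw [hc]; nlinarith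
            _ ≤ b ^ 3 * ((R + 1) * (R + 1)) + b ^ 3 * ((R + 1) * (R + 1)) := by
                apply Nat.add_le_add
                · exact Nat.mul_le_mul e3 e4
                · rw [mul_comm]
                  exact Nat.mul_le_mul e2 e4
            _ = d := by rw [hd, hB]; ring
    exact_mod_cast h3
  linarith

end Pool.Agent.W10.HS
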