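import Pool.Agent.W10.HS.E

namespace Pool.Agent.W10.HS

open Finset

lemma zeroOne_shift (b t s : ℕ) (hs : s ∈ zeroOne b) : b ^ t * s ∈ zeroOne b := by
  obtain ⟨S, hS, rfl⟩ := hs
  refine ⟨S.map (addLeftEmbedding t), by rwa [map_nonempty], ?_⟩
  rw [sum_map, mul_sum]
  apply sum_congr rfl
  intro i _
  rw [addLeftEmbedding_apply, pow_add]

lemma last_two (b : ℕ) (hb : 2 ≤ b) (γ : ℝ) (Q n0 L E s' : ℕ) (hQ : 1 ≤ Q)
    (hs' : s' ∈ zeroOne b) (hdvd : Q ∣ s') (hlt : s' < b ^ E)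
    (hnd : nd (Q * γ * b ^ n0) ≤ 1 / (2 * (b : ℝ) ^ L)) :
    ∃ s ∈ zeroOne b, s < b ^ ((n0 + 1) / 2 + E) ∧
      nd ((s : ℝ) ^ 2 * γ) ≤ (b : ℝ) ^ (1 + 2 * E) / (2 * (b : ℝ) ^ L) := by
  have hb0 : (0 : ℝ) < b := by positivity
  obtain ⟨V, rfl⟩ := hdvd
  set t := (n0 + 1) / 2 with ht
  have h2t : 2 * t = n0 + (2 * t - n0) := by omega
  have h2t1 : 2 * t - n0 ≤ 1 := by omega
  set q := 2 * t - n0 with hq
  have hV : V ≤ Q * V := Nat.le_mul_of_pos_left _ hQ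
  refine ⟨b ^ t * (Q * V), zeroOne_shift b t _ hs', ?_, ?_⟩
  · rw [pow_add]
    exact Nat.mul_lt_mul_of_pos_left hlt (by positivity)
  · have hM : b ^ q * (Q * V) * V ≤ b ^ (1 + 2 * E) := by
      have e1 : b ^ q ≤ b ^ 1 := Nat.pow_le_pow_right (by omega) h2t1
      calc b ^ q * (Q * V) * V ≤ b ^ 1 * b ^ E * b ^ E :=
            Nat.mul_le_mul (Nat.mul_le_mul e1 hlt.le) (hV.trans hlt.le)
        _ = b ^ (1 + 2 * E) := by
            rw [← pow_add, ← pow_add]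
            congr 1
            ring
    have hsq : ((b ^ t * (Q * V) : ℕ) : ℝ) ^ 2 * γ =
        ((b ^ q * (Q * V) * V : ℕ) : ℝ) * (Q * γ * b ^ n0) := by
      have e1 : ((b : ℝ) ^ t) ^ 2 = (b : ℝ) ^ n0 * (b : ℝ) ^ q := by
        rw [← pow_mul, ← pow_add, mul_comm t 2, h2t]
      push_cast
      rw [mul_pow, e1]
      ring
    rw [hsq]
    refine (nd_nat_mul _ _).trans ?_
    rw [div_eq_mul_one_div]
    apply mul_le_mul _ hnd (nd_nonneg _) (by positivity)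
    exact_mod_cast hM

lemma last_one (b : ℕ) (hb : 2 ≤ b) (γ : ℝ) (Q n0 L E s' : ℕ) (hQ : 1 ≤ Q)
    (hs' : s' ∈ zeroOne b) (hdvd : Q ∣ s') (hlt : s' < b ^ E)
    (hnd : nd (Q * γ * b ^ n0) ≤ 1 / (2 * (b : ℝ) ^ L)) :
    ∃ s ∈ zeroOne b, s < b ^ (n0 + E) ∧
      nd ((s : ℝ) * γ) ≤ (b : ℝ) ^ E / (2 * (b : ℝ) ^ L) := by
  have hb0 : (0 : ℝ) < b := by positivity
  obtain ⟨V, rfl⟩ := hdvd
  have hV : V ≤ Q * V := Nat.le_mul_of_pos_left _ hQ
  refine ⟨b ^ n0 * (Q * V), zeroOne_shift b n0 _ hs', ?_, ?_⟩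
  · rw [pow_add]
    exact Nat.mul_lt_mul_of_pos_left hlt (by positivity)
  · have hM : V ≤ b ^ E := hV.trans hlt.le
    have hsq : ((b ^ n0 * (Q * V) : ℕ) : ℝ) * γ = (V : ℝ) * (Q * γ * b ^ n0) := by
      push_cast
      ring
    rw [hsq]
    refine (nd_nat_mul _ _).trans ?_
    rw [div_eq_mul_one_div]
    apply mul_le_mul _ hnd (nd_nonneg _) (by positivity)
    exact_mod_cast hM

/-- sizes -/
lemma EE_le (b t : ℕ) (hb : 2 ≤ b) (ht : 1 ≤ t) : 1 + 2 * EE b (10 * b * t) + t ≤ 489 * b ^ 5 * t ^ 2 := by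
  unfold EE
  obtain ⟨x, rfl⟩ : ∃ x, b = x + 2 := ⟨b - 2, by omega⟩
  obtain ⟨y, rfl⟩ : ∃ y, t = y + 1 := ⟨t - 1, by omega⟩
  have h1 : (x + 2) * (10 * (x + 2) * (y + 1)) ≤ 2 * (x + 2) ^ 5 * (y + 1) ^ 2 := by
    have e1 : (x + 2) ^ 2 * 8 ≤ (x + 2) ^ 2 * (x + 2) ^ 3 := by
      apply Nat.mul_le_mul_left
      calc 8 = 2 ^ 3 := by norm_num
        _ ≤ (x + 2) ^ 3 := Nat.pow_le_pow_left (by omega) 3
    have e2 : (y + 1) ≤ (y + 1) ^ 2 := Nat.le_self_pow (by norm_num) _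
    calc (x + 2) * (10 * (x + 2) * (y + 1)) = 10 * ((x + 2) ^ 2 * (y + 1)) := by ring
      _ ≤ 16 * ((x + 2) ^ 2 * (y + 1)) := by omega
      _ = 2 * ((x + 2) ^ 2 * 8) * (y + 1) := by ring
      _ ≤ 2 * ((x + 2) ^ 2 * (x + 2) ^ 3) * (y + 1) ^ 2 :=
          Nat.mul_le_mul (Nat.mul_le_mul_left _ e1) e2
      _ = 2 * (x + 2) ^ 5 * (y + 1) ^ 2 := by ring
  have h2 : 10 * (x + 2) * (y + 1) + 1 ≤ 11 * ((x + 2) * (y + 1)) := by nlinarith
  have h3 : 2 * (x + 2) ^ 3 * (10 * (x + 2) * (y + 1) + 1) * (10 * (x + 2) * (y + 1) + 1) ≤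
      242 * (x + 2) ^ 5 * (y + 1) ^ 2 := by
    calc 2 * (x + 2) ^ 3 * (10 * (x + 2) * (y + 1) + 1) * (10 * (x + 2) * (y + 1) + 1)
        ≤ 2 * (x + 2) ^ 3 * (11 * ((x + 2) * (y + 1))) * (11 * ((x + 2) * (y + 1))) :=
          Nat.mul_le_mul (Nat.mul_le_mul_left _ h2) h2
      _ = 242 * (x + 2) ^ 5 * (y + 1) ^ 2 := by ring
  have h4 : 1 + (y + 1) ≤ (x + 2) ^ 5 * (y + 1) ^ 2 := by
    have e1 : 2 ≤ (x + 2) ^ 5 := by
      calc 2 ≤ 2 ^ 5 := by norm_num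
        _ ≤ (x + 2) ^ 5 := Nat.pow_le_pow_left (by omega) 5
    calc 1 + (y + 1) ≤ 2 * (y + 1) ^ 2 := by nlinarith
      _ ≤ _ := Nat.mul_le_mul_right _ e1
  have h5 : 489 * (x + 2) ^ 5 * (y + 1) ^ 2 = 2 * (2 * (x + 2) ^ 5 * (y + 1) ^ 2 +
    242 * (x + 2) ^ 5 * (y + 1) ^ 2) + (x + 2) ^ 5 * (y + 1) ^ 2 := by ring
  rw [h5]
  omega

lemma six_m (b t : ℕ) (hb : 2 ≤ b) (ht : 1 ≤ t) :
    6 * (2 * b ^ 3 * (7 + 4 * t) * (1 + 2 * EE b (10 * b * t) + t)) ≤ 64548 * b ^ 8 * t ^ 3 := by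
  have h1 := EE_le b t hb ht
  calc 6 * (2 * b ^ 3 * (7 + 4 * t) * (1 + 2 * EE b (10 * b * t) + t))
      ≤ 6 * (2 * b ^ 3 * (11 * t) * (489 * b ^ 5 * t ^ 2)) := by
        apply Nat.mul_le_mul_left
        apply Nat.mul_le_mul _ h1
        apply Nat.mul_le_mul_left
        omega
    _ = 64548 * b ^ 8 * t ^ 3 := by ring

lemma seven_two (b t : ℕ) (hb : 2 ≤ b) :
    1 / (b : ℝ) ^ (7 + 4 * t) < 1 / (72 * (((b ^ (2 * t) : ℕ) : ℝ)) ^ 2) := by
  have hb2 : (2 : ℝ) ≤ b := by exact_mod_cast hb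
  have hb0 : (0 : ℝ) < b := by linarith
  apply one_div_lt_one_div_of_lt (by positivity)
  push_cast
  have h1 : ((b : ℝ) ^ (2 * t)) ^ 2 = (b : ℝ) ^ (4 * t) := by rw [← pow_mul]; congr 1; ring
  rw [h1, pow_add]
  apply mul_lt_mul_of_pos_right _ (by positivity)
  calc (72 : ℝ) < 2 ^ 7 := by norm_num
    _ ≤ (b : ℝ) ^ 7 := pow_le_pow_left₀ (by norm_num) hb2 7

lemma fourier_cond (b t : ℕ) (hb : 2 ≤ b) :
    (1 / (2 * (1 / (b : ℝ) ^ t))) ^ 6 < (((b ^ (2 * t) : ℕ) : ℝ)) ^ 5 / 6 := by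
  have hb2 : (2 : ℝ) ≤ b := by exact_mod_cast hb
  have hb0 : (0 : ℝ) < b := by linarith
  have e1 : 1 / (2 * (1 / (b : ℝ) ^ t)) = (b : ℝ) ^ t / 2 := by field_simp
  rw [e1, div_pow]
  push_cast
  rw [← pow_mul, ← pow_mul]
  have h1 : (b : ℝ) ^ (t * 6) ≤ (b : ℝ) ^ (2 * t * 5) :=
    pow_le_pow_right₀ (by linarith) (by omega)
  have h2 : (0 : ℝ) < (b : ℝ) ^ (t * 6) := by positivity
  have h3 : (2 : ℝ) ^ 6 = 64 := by norm_num
  rw [h3]
  linarith

lemma core_two (b : ℕ) (hb : 2 ≤ b) (t : ℕ) (ht : 1 ≤ t) (γ : ℝ) :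
    ∃ s ∈ zeroOne b, s ^ 2 ≤ b ^ (64548 * b ^ 8 * t ^ 3) ∧
      nd ((s : ℝ) ^ 2 * γ) ≤ 1 / (b : ℝ) ^ t := by
  have hb2 : (2 : ℝ) ≤ b := by exact_mod_cast hb
  have hb0 : (0 : ℝ) < b := by linarith
  set n := b ^ (2 * t) with hn
  set q := 7 + 4 * b * t with hq
  set R := 10 * b * t with hR
  set E := EE b R with hE
  set L := 1 + 2 * E + t with hL
  set B := 2 * b ^ 3 * (7 + 4 * t) with hB
  set m := B * L with hm
  have hn1 : 1 ≤ n := Nat.one_le_pow _ _ (by omega)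
  have hmt : 6 * m ≤ 64548 * b ^ 8 * t ^ 3 := six_m b t hb ht
  have hfin : ∀ s : ℕ, s < b ^ (3 * m) → s ^ 2 ≤ b ^ (64548 * b ^ 8 * t ^ 3) := by
    intro s hs
    calc s ^ 2 ≤ (b ^ (3 * m)) ^ 2 := Nat.pow_le_pow_left hs.le 2
      _ = b ^ (6 * m) := by rw [← pow_mul]; congr 1; ring
      _ ≤ _ := Nat.pow_le_pow_right (by omega) hmt
  have hb3 : 8 ≤ b ^ 3 := by
    calc 8 = 2 ^ 3 := by norm_num
      _ ≤ b ^ 3 := Nat.pow_le_pow_left hb 3
  have hBpos : 1 ≤ B := by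
    rw [hB]
    have : 1 ≤ b ^ 3 * (7 + 4 * t) := Nat.mul_pos (by omega) (by omega)
    calc 1 ≤ b ^ 3 * (7 + 4 * t) := this
      _ ≤ 2 * (b ^ 3 * (7 + 4 * t)) := by omega
      _ = _ := by ring
  have hLm : L ≤ m := by rw [hm]; exact Nat.le_mul_of_pos_left _ hBpos
  have hqm : q + 1 ≤ m := by
    rw [hm, hB]
    have e1 : b ≤ b ^ 3 := Nat.le_self_pow (by norm_num) b
    calc q + 1 = 8 * 1 + b * (4 * t) := by rw [hq]; ring
      _ ≤ b ^ 3 * (7 + 4 * t) + b ^ 3 * (7 + 4 * t) := by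
          apply Nat.add_le_add
          · exact Nat.mul_le_mul hb3 (by omega)
          · exact Nat.mul_le_mul e1 (by omega)
      _ = 2 * b ^ 3 * (7 + 4 * t) * 1 := by ring
      _ ≤ 2 * b ^ 3 * (7 + 4 * t) * L := Nat.mul_le_mul_left _ (by omega)
  -- the shifted numbers
  set Y : Finset ℕ → ℝ := fun A' => ((b ^ m * XA b A' + b ^ (m + q) : ℕ) : ℝ) with hY
  by_cases hcase : ∃ A ∈ (range m).powerset, ∃ A' ∈ (range q).powerset,
      nd (γ * ((XA b A : ℝ) + Y A') ^ 2) < 1 / (b : ℝ) ^ t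
  · obtain ⟨A, hA, A', hA', hnd⟩ := hcase
    rw [mem_powerset] at hA hA'
    have hval : XA b A + (b ^ m * XA b A' + b ^ (m + q)) =
        XA b (A ∪ ((A'.map (addLeftEmbedding m)) ∪ {m + q})) := by
      unfold XA
      rw [sum_union, sum_union, sum_singleton, sum_map, mul_sum]
      · congr 2
        apply sum_congr rfl
        intro i _
        rw [addLeftEmbedding_apply, pow_add]
      · rw [disjoint_singleton_right, mem_map]
        rintro ⟨i, hi, hi2⟩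
        have := mem_range.mp (hA' hi)
        rw [addLeftEmbedding_apply] at hi2
        omega
      · rw [disjoint_left]
        intro i hi hi2
        have h1 := mem_range.mp (hA hi)
        rw [mem_union, mem_map, mem_singleton] at hi2
        rcases hi2 with ⟨x, _, hx⟩ | h2
        · rw [addLeftEmbedding_apply] at hx
          omega
        · omega
    refine ⟨XA b A + (b ^ m * XA b A' + b ^ (m + q)), ?_, ?_, ?_⟩
    · rw [hval]
      exact ⟨_, ⟨m + q, by simp⟩, rfl⟩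
    · apply hfin
      rw [hval]
      apply Nat.geomSum_lt hb
      intro i hi
      rw [mem_union, mem_union, mem_map, mem_singleton] at hi
      rcases hi with h1 | ⟨x, hx, rfl⟩ | h1
      · have := mem_range.mp (hA h1)
        omega
      · have := mem_range.mp (hA' hx)
        rw [addLeftEmbedding_apply]
        omega
      · omega
    · rw [mul_comm]
      have e1 : ((XA b A + (b ^ m * XA b A' + b ^ (m + q)) : ℕ) : ℝ) =
          (XA b A : ℝ) + Y A' := Nat.cast_add _ _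
      rw [e1]
      exact hnd.le
  push Not at hcase
  obtain ⟨h, hh1, hh2, hsum⟩ := fourier ((range m).powerset ×ˢ (range q).powerset)
    (fun p => γ * ((XA b p.1 : ℝ) + Y p.2) ^ 2)
    ⟨(∅, ∅), by
      rw [mem_product]
      exact ⟨empty_mem_powerset _, empty_mem_powerset _⟩⟩
    (1 / (b : ℝ) ^ t) (by positivity)
    (fun p hp => hcase p.1 (mem_product.mp hp).1 p.2 (mem_product.mp hp).2)
    n hn1 (fourier_cond b t hb)
  have hTcard : 72 * n ^ 2 ≤ ((range q).powerset).card := by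
    rw [card_powerset, card_range, hq, hn, pow_add]
    apply Nat.mul_le_mul (by norm_num)
    calc (b ^ (2 * t)) ^ 2 = b ^ (4 * t) := by rw [← pow_mul]; congr 1; ring
      _ ≤ (2 ^ b) ^ (4 * t) := Nat.pow_le_pow_left (Nat.lt_pow_self (by norm_num)).le _
      _ = 2 ^ (4 * b * t) := by rw [← pow_mul]; congr 1; ring
  rw [card_product, sum_product] at hsum
  have hsum2 : (2 : ℝ) ^ m * ((range q).powerset).card / (6 * n) ≤
      ‖∑ A ∈ (range m).powerset, ∑ k ∈ (range q).powerset,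
        e ((h * γ) * ((XA b A : ℝ) + Y k) ^ 2)‖ := by
    refine le_trans (le_of_eq ?_) (hsum.trans (le_of_eq ?_))
    · simp only [card_powerset, card_range]; push_cast; ring
    · congr 1
      apply sum_congr rfl
      intro A _
      apply sum_congr rfl
      intro k _
      congr 1
      ring
  obtain ⟨A₁, hA₁, A₂, hA₂, hne, hPhi⟩ := good_pair' b m n hn1 _ hTcard (h * γ) Y hsum2
  wlog hlt : XA b A₂ < XA b A₁ generalizing A₁ A₂
  · have hinj := Finset.geomSum_injective hb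
    have hne2 : XA b A₁ ≠ XA b A₂ := fun hh => hne (hinj hh)
    apply this A₂ hA₂ A₁ hA₁ (Ne.symm hne) _ (by omega)
    rw [← Phi_neg]
    rw [show -(2 * (h * γ) * (Y A₂ - Y A₁)) = 2 * (h * γ) * (Y A₁ - Y A₂) by ring]
    exact hPhi
  rw [mem_powerset] at hA₁ hA₂
  obtain ⟨D, hD⟩ := Nat.exists_eq_add_of_lt hlt
  set D' := D + 1 with hD'
  have hDlt : D' < b ^ q := by
    have : XA b A₁ < b ^ q := Nat.geomSum_lt hb (fun i hi => mem_range.mp (hA₁ hi))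
    omega
  have hYd : Y A₁ - Y A₂ = b ^ m * D' := by
    rw [hY]
    simp only
    rw [hD, hD']
    push_cast
    ring
  rw [hYd] at hPhi
  obtain ⟨u, hu, hu2⟩ := window b hb B L (2 * (h * γ) * (b ^ m * D')) (by
    refine lt_of_lt_of_le ?_ hPhi
    exact (kappa_pow' b hb (7 + 4 * t)).trans_lt (seven_two b t hb))
  set Q := 2 * h * D' with hQ
  have hQ1 : 1 ≤ Q := by
    rw [hQ]
    exact Nat.mul_pos (by omega) (by omega)
  have hQR : Q ≤ b ^ R := by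
    calc Q = 2 * h * D' := hQ
      _ ≤ 2 * (3 * n) * b ^ q := Nat.mul_le_mul (Nat.mul_le_mul_left _ hh2) hDlt.le
      _ = 6 * b ^ (2 * t + q) := by rw [hn, pow_add]; ring
      _ ≤ b ^ 3 * b ^ (2 * t + q) := Nat.mul_le_mul_right _ (by omega)
      _ = b ^ (3 + (2 * t + q)) := (pow_add _ _ _).symm
      _ ≤ b ^ R := by
          apply Nat.pow_le_pow_right (by omega)
          rw [hR, hq]
          nlinarith
  obtain ⟨s', hs', hdvd, hs'lt⟩ := exists_multiple b Q R hb hQ1 hQR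
  have hz : 2 * (h * γ) * (b ^ m * D') * b ^ (u * L) = Q * γ * b ^ (m + u * L) := by
    rw [hQ, pow_add]
    push_cast
    ring
  rw [hz] at hu2
  obtain ⟨s, hs, hslt, hsnd⟩ := last_two b hb γ Q (m + u * L) L E s' hQ1 hs' hdvd hs'lt hu2
  refine ⟨s, hs, ?_, ?_⟩
  · apply hfin
    refine hslt.trans_le (Nat.pow_le_pow_right (by omega) ?_)
    have e1 : u * L + L ≤ m := by
      rw [hm]
      calc u * L + L = (u + 1) * L := by ring
        _ ≤ B * L := Nat.mul_le_mul_right _ hu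
    omega
  · refine hsnd.trans ?_
    rw [hL, pow_add (b : ℝ) (1 + 2 * E) t]
    have h1 : (0 : ℝ) < (b : ℝ) ^ (1 + 2 * E) := by positivity
    have h2 : (0 : ℝ) < (b : ℝ) ^ t := by positivity
    rw [div_le_div_iff₀ (by positivity) h2]
    nlinarith [mul_pos h1 h2]

lemma core_one (b : ℕ) (hb : 2 ≤ b) (t : ℕ) (ht : 1 ≤ t) (γ : ℝ) :
    ∃ s ∈ zeroOne b, s ≤ b ^ (64548 * b ^ 8 * t ^ 3) ∧
      nd ((s : ℝ) * γ) ≤ 1 / (b : ℝ) ^ t := by
  have hb2 : (2 : ℝ) ≤ b := by exact_mod_cast hb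
  have hb0 : (0 : ℝ) < b := by linarith
  set n := b ^ (2 * t) with hn
  set R := 10 * b * t with hR
  set E := EE b R with hE
  set L := 1 + 2 * E + t with hL
  set B := 2 * b ^ 3 * (7 + 4 * t) with hB
  set m := B * L with hm
  have hn1 : 1 ≤ n := Nat.one_le_pow _ _ (by omega)
  have hmt : 6 * m ≤ 64548 * b ^ 8 * t ^ 3 := six_m b t hb ht
  have hfin : ∀ s : ℕ, s < b ^ (6 * m) → s ≤ b ^ (64548 * b ^ 8 * t ^ 3) := by
    intro s hs
    exact hs.le.trans (Nat.pow_le_pow_right (by omega) hmt)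
  have hBpos : 1 ≤ B := by
    rw [hB]
    have : 1 ≤ b ^ 3 * (7 + 4 * t) := Nat.mul_pos (by positivity) (by omega)
    calc 1 ≤ b ^ 3 * (7 + 4 * t) := this
      _ ≤ 2 * (b ^ 3 * (7 + 4 * t)) := by omega
      _ = _ := by ring
  have hLm : L ≤ m := by rw [hm]; exact Nat.le_mul_of_pos_left _ hBpos
  by_cases hcase : ∃ A ∈ (range m).powerset,
      nd (γ * ((XA b A : ℝ) + ((b ^ m : ℕ) : ℝ))) < 1 / (b : ℝ) ^ t
  · obtain ⟨A, hA, hnd⟩ := hcase
    rw [mem_powerset] at hA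
    have hval : XA b A + b ^ m = XA b (A ∪ {m}) := by
      unfold XA
      rw [sum_union, sum_singleton]
      rw [disjoint_singleton_right]
      intro hi
      have := mem_range.mp (hA hi)
      omega
    refine ⟨XA b A + b ^ m, ?_, ?_, ?_⟩
    · rw [hval]
      exact ⟨_, ⟨m, by simp⟩, rfl⟩
    · apply hfin
      rw [hval]
      apply Nat.geomSum_lt hb
      intro i hi
      rw [mem_union, mem_singleton] at hi
      rcases hi with h1 | h1
      · have := mem_range.mp (hA h1)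
        omega
      · omega
    · rw [mul_comm]
      have e1 : ((XA b A + b ^ m : ℕ) : ℝ) = (XA b A : ℝ) + ((b ^ m : ℕ) : ℝ) := Nat.cast_add _ _
      rw [e1]
      exact hnd.le
  push Not at hcase
  obtain ⟨h, hh1, hh2, hsum⟩ := fourier ((range m).powerset)
    (fun p => γ * ((XA b p : ℝ) + ((b ^ m : ℕ) : ℝ)))
    ⟨∅, empty_mem_powerset _⟩
    (1 / (b : ℝ) ^ t) (by positivity) hcase n hn1 (fourier_cond b t hb)
  have hPhi : 1 / (72 * (n : ℝ) ^ 2) ≤ Phi b m (h * γ) := by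
    have h1 : ‖∑ A ∈ (range m).powerset, e (h * (γ * ((XA b A : ℝ) + ((b ^ m : ℕ) : ℝ))))‖ =
        2 ^ m * Phi b m (h * γ) := by
      rw [← norm_sum_e_XA]
      have h2 : ∑ A ∈ (range m).powerset, e (h * (γ * ((XA b A : ℝ) + ((b ^ m : ℕ) : ℝ)))) =
          e (h * γ * ((b ^ m : ℕ) : ℝ)) * ∑ A ∈ (range m).powerset, e (h * γ * XA b A) := by
        rw [mul_sum]
        apply sum_congr rfl
        intro A _
        rw [← e_add]
        congr 1
        ring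
      rw [h2, norm_mul, norm_e, one_mul]
    rw [h1, card_powerset, card_range] at hsum
    have hn1r : (1 : ℝ) ≤ n := by exact_mod_cast hn1
    have h3 : (0 : ℝ) < 2 ^ m := by positivity
    push_cast at hsum
    have h4 : 1 / (6 * (n : ℝ)) ≤ Phi b m (h * γ) := by
      have h5 : (2 : ℝ) ^ m * (1 / (6 * n)) ≤ 2 ^ m * Phi b m (h * γ) := by
        refine le_trans (le_of_eq ?_) hsum
        ring
      exact le_of_mul_le_mul_left h5 h3
    refine le_trans ?_ h4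
    apply one_div_le_one_div_of_le (by positivity)
    nlinarith
  obtain ⟨u, hu, hu2⟩ := window b hb B L (h * γ) (by
    refine lt_of_lt_of_le ?_ hPhi
    exact (kappa_pow' b hb (7 + 4 * t)).trans_lt (seven_two b t hb))
  have hQR : h ≤ b ^ R := by
    calc h ≤ 3 * n := hh2
      _ ≤ b ^ 2 * b ^ (2 * t) := by
          rw [hn]
          apply Nat.mul_le_mul_right
          nlinarith
      _ = b ^ (2 + 2 * t) := (pow_add _ _ _).symm
      _ ≤ b ^ R := by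
          apply Nat.pow_le_pow_right (by omega)
          rw [hR]
          nlinarith
  obtain ⟨s', hs', hdvd, hs'lt⟩ := exists_multiple b h R hb hh1 hQR
  obtain ⟨s, hs, hslt, hsnd⟩ := last_one b hb γ h (u * L) L E s' hh1 hs' hdvd hs'lt hu2
  refine ⟨s, hs, ?_, ?_⟩
  · apply hfin
    refine hslt.trans_le (Nat.pow_le_pow_right (by omega) ?_)
    have e1 : u * L + L ≤ m := by
      rw [hm]
      calc u * L + L = (u + 1) * L := by ring
        _ ≤ B * L := Nat.mul_le_mul_right _ hu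
    omega
  · refine hsnd.trans ?_
    have h1 : (b : ℝ) ^ E ≤ (b : ℝ) ^ (1 + 2 * E) := pow_le_pow_right₀ (by linarith) (by omega)
    rw [hL, pow_add (b : ℝ) (1 + 2 * E) t]
    have h2 : (0 : ℝ) < (b : ℝ) ^ t := by positivity
    have h3 : (0 : ℝ) < (b : ℝ) ^ (1 + 2 * E) := by positivity
    rw [div_le_div_iff₀ (by positivity) h2]
    nlinarith [mul_pos h3 h2, mul_le_mul_of_nonneg_right h1 h2.le]

end Pool.Agent.W10.HS
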