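import Pool.Agent.W10.HS.F

namespace Pool.Agent.W10.HS

open Finset

lemma two_log_two : (9 : ℝ) / 10 < 2 * (Real.log 2) ^ 2 := by
  have h := Real.log_two_gt_d9
  nlinarith

/-- From the discrete bound to the rate. -/
lemma rate (b : ℕ) (hb : 2 ≤ b) (D : Set ℕ) (h1 : 1 ∈ D) (γ : ℝ)
    (hcore : ∀ t : ℕ, 1 ≤ t → ∃ n ∈ D, n ≤ b ^ (64548 * b ^ 8 * t ^ 3) ∧
      nd ((n : ℝ) * γ) ≤ 1 / (b : ℝ) ^ t) (N : ℕ) (hN : 1 ≤ N) :
    ∃ n ∈ D, n ≤ N ∧ nd ((n : ℝ) * γ) ≤
      b * Real.exp (-(Real.log N ^ (1 / 3 : ℝ) / (50 * (b : ℝ) ^ 3))) := by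
  have hb2 : (2 : ℝ) ≤ b := by exact_mod_cast hb
  have hb0 : (0 : ℝ) < b := by linarith
  set A := 64548 * b ^ 8 with hA
  have hA1 : 1 ≤ A := by
    rw [hA]
    have : 1 ≤ b ^ 8 := Nat.one_le_pow _ _ (by omega)
    omega
  obtain ⟨t, ht1, ht2⟩ : ∃ t, b ^ (A * t ^ 3) ≤ N ∧ N < b ^ (A * (t + 1) ^ 3) := by
    have hex : ∃ t, N < b ^ (A * t ^ 3) := by
      refine ⟨N, ?_⟩
      calc N < b ^ N := Nat.lt_pow_self (by omega)
        _ ≤ b ^ (A * N ^ 3) := by
            apply Nat.pow_le_pow_right (by omega)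
            calc N ≤ N ^ 3 := Nat.le_self_pow (by norm_num) N
              _ ≤ A * N ^ 3 := Nat.le_mul_of_pos_left _ hA1
    classical
    obtain ⟨t, ht, hmin⟩ : ∃ t, N < b ^ (A * t ^ 3) ∧ ∀ t' < t, ¬ N < b ^ (A * t' ^ 3) :=
      ⟨Nat.find hex, Nat.find_spec hex, fun t' ht' => Nat.find_min hex ht'⟩
    rcases Nat.eq_zero_or_pos t with rfl | hpos
    · simp at ht
      omega
    · refine ⟨t - 1, ?_, ?_⟩
      · exact not_lt.mp (hmin (t - 1) (by omega))
      · rw [show t - 1 + 1 = t by omega]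
        exact ht
  have hmain : 1 / (b : ℝ) ^ t ≤
      b * Real.exp (-(Real.log N ^ (1 / 3 : ℝ) / (50 * (b : ℝ) ^ 3))) := by
    have hN0 : (0 : ℝ) < N := by exact_mod_cast hN
    have hlogN : 0 ≤ Real.log N := Real.log_natCast_nonneg N
    have hlogb : Real.log 2 ≤ Real.log b := Real.log_le_log (by norm_num) hb2
    have hlog2 : 0 < Real.log 2 := Real.log_pos (by norm_num)
    have hlogb0 : 0 < Real.log b := by linarith
    have h2 : Real.log N ≤ (A * (t + 1) ^ 3 : ℝ) * Real.log b := by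
      have h3 : (N : ℝ) ≤ (b : ℝ) ^ (A * (t + 1) ^ 3) := by exact_mod_cast ht2.le
      have h4 := Real.log_le_log hN0 h3
      rw [Real.log_pow] at h4
      push_cast at h4
      exact h4
    have h5 : Real.log N ^ (1 / 3 : ℝ) ≤ 50 * (b : ℝ) ^ 3 * ((t + 1) * Real.log b) := by
      have h6 : Real.log N ≤ (50 * (b : ℝ) ^ 3 * ((t + 1) * Real.log b)) ^ 3 := by
        refine h2.trans ?_
        have h7 : (9 : ℝ) / 10 ≤ b * Real.log b ^ 2 := by
          have h8 : Real.log 2 ^ 2 ≤ Real.log b ^ 2 := pow_le_pow_left₀ hlog2.le hlogb 2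
          have h9 : 2 * Real.log 2 ^ 2 ≤ b * Real.log b ^ 2 :=
            mul_le_mul hb2 h8 (by positivity) hb0.le
          linarith [two_log_two]
        have h8 : 0 ≤ (b : ℝ) ^ 8 * (t + 1) ^ 3 * Real.log b := by positivity
        rw [hA]
        push_cast
        have h10 : (64548 : ℝ) ≤ 125000 * (b * Real.log b ^ 2) := by linarith
        calc 64548 * (b : ℝ) ^ 8 * ((t : ℝ) + 1) ^ 3 * Real.log b
            = ((b : ℝ) ^ 8 * (t + 1) ^ 3 * Real.log b) * 64548 := by ring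
          _ ≤ ((b : ℝ) ^ 8 * (t + 1) ^ 3 * Real.log b) * (125000 * (b * Real.log b ^ 2)) :=
              mul_le_mul_of_nonneg_left h10 h8
          _ = _ := by ring
      have h11 : Real.log N ^ (1 / 3 : ℝ) ≤
          ((50 * (b : ℝ) ^ 3 * ((t + 1) * Real.log b)) ^ 3) ^ (1 / 3 : ℝ) :=
        Real.rpow_le_rpow hlogN h6 (by norm_num)
      refine h11.trans (le_of_eq ?_)
      rw [← Real.rpow_natCast, ← Real.rpow_mul (by positivity)]
      norm_num
    have h12 : Real.log N ^ (1 / 3 : ℝ) / (50 * (b : ℝ) ^ 3) ≤ (t + 1) * Real.log b := by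
      rw [div_le_iff₀ (by positivity)]
      linarith
    have h13 : Real.exp (-((t + 1) * Real.log b)) = 1 / (b : ℝ) ^ (t + 1) := by
      rw [Real.exp_neg, one_div]
      congr 1
      rw [show ((t : ℝ) + 1) * Real.log b = ((t + 1 : ℕ) : ℝ) * Real.log b by push_cast; ring,
        Real.exp_nat_mul, Real.exp_log hb0]
    calc 1 / (b : ℝ) ^ t = b * (1 / (b : ℝ) ^ (t + 1)) := by
          rw [pow_succ]
          field_simp
      _ = b * Real.exp (-((t + 1) * Real.log b)) := by rw [h13]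
      _ ≤ _ := by
          apply mul_le_mul_of_nonneg_left _ hb0.le
          apply Real.exp_le_exp.mpr
          linarith
  rcases Nat.eq_zero_or_pos t with rfl | hpos
  · refine ⟨1, h1, hN, ?_⟩
    refine le_trans ?_ hmain
    have := nd_le_half (((1 : ℕ) : ℝ) * γ)
    rw [pow_zero]
    linarith
  · obtain ⟨n, hn, hn2, hn3⟩ := hcore t hpos
    exact ⟨n, hn, hn2.trans ht1, hn3.trans hmain⟩

end Pool.Agent.W10.HS
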